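import Mathlib
import Pool.Agent.H14.SymGB

set_option autoImplicit false

namespace Pool.Agent.Results.MP_ae75a9_co.Counterexample

open Pool.Agent.H14.SymGB

theorem result (k : Type) [Field k] : ∃ r : P 5 → P 5 → Prop, IsExt r ∧
    ∀ G : Set (MvPolynomial (P 5) k), IsGB r G →
      ∃ g ∈ G, ∃ u, IsLM r g u ∧ deg u = 3 ∧ 3 ≤ g.totalDegree ∧
        ∀ (d : ℕ) (M : Fin d → P 5), (∀ a b, mat u a b = ∑ i, (M i).1 a b) →
          ∀ i, ¬ ∀ a b, (M i).1 a b ≤ 1 := by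
  refine ⟨ord, ord_ext, fun G hG => ?_⟩
  obtain ⟨g, hg, u, h1, h2, h3, h4⟩ := main 0 (Or.inl rfl) hG
  refine ⟨g, hg, u, h1, h2, h3, fun d M hM i hi => ?_⟩
  have z : ∀ b : Fin 5, b ≠ 0 → (M i).1 0 b = 0 := fun b hb => by
    have e := hM 0 b
    rw [h4] at e
    have : ∑ i, (M i).1 0 b = 0 := by
      rw [← e]; clear e; revert b; decide
    exact Finset.sum_eq_zero_iff.1 this i (Finset.mem_univ _)
  have r := (M i).2.2 0
  rw [Fin.sum_univ_five, z 1 (by decide), z 2 (by decide), z 3 (by decide), z 4 (by decide)] at r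
  have := hi 0 0
  omega

end Pool.Agent.Results.MP_ae75a9_co.Counterexample
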